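import Mathlib
import Pool.Agent.H786.G.R_seed8.QTot.N2

set_option autoImplicit false
open scoped ContDiff Manifold Topology Matrix
open Set

namespace Pool.Agent.H858R2

open Pool.Agent.QTot

/-- Model space of an `n`-dimensional manifold. -/
abbrev En (n : ℕ) : Type := EuclideanSpace ℝ (Fin n)

/-- The set of coordinate vectors of the chart `e`. -/
def ctarget {n : ℕ} {M : Type} [TopologicalSpace M] (e : OpenPartialHomeomorph M (En n)) :
    Set (Eu n) := {y | WithLp.toLp 2 y ∈ e.target}

/-- The coordinate change from the chart `e` to the chart `e'`. -/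
noncomputable def ctrn {n : ℕ} {M : Type} [TopologicalSpace M]
    (e e' : OpenPartialHomeomorph M (En n)) (y : Eu n) : Eu n :=
  WithLp.ofLp (e' (e.symm (WithLp.toLp 2 y)))

/-- A smooth Riemannian metric on the manifold `M`, given by its matrices in the charts of the
atlas: they are smooth, (symmetric and) positive definite, and transform as a covariant
2-tensor. -/
structure Metric (n : ℕ) (M : Type) [TopologicalSpace M] [ChartedSpace (En n) M] where
  /-- the matrix of the metric in the chart `e` at the point of coordinates `y` -/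
  G : OpenPartialHomeomorph M (En n) → Eu n → Mt n
  smooth : ∀ e ∈ atlas (En n) M, ∀ i j, ContDiffOn ℝ ∞ (fun y => G e y i j) (ctarget e)
  posDef : ∀ e ∈ atlas (En n) M, ∀ y ∈ ctarget e, (G e y).PosDef
  compat : ∀ e ∈ atlas (En n) M, ∀ e' ∈ atlas (En n) M, ∀ y ∈ ctarget e,
    e.symm (WithLp.toLp 2 y) ∈ e'.source →
    G e y = (Jac (ctrn e e') y)ᵀ * G e' (ctrn e e' y) * Jac (ctrn e e') y

/-- `R(∂_i, ∂_j, ∂_k, ∂_l) = ⟨R(∂_i, ∂_j) ∂_k, ∂_l⟩`; with this sign `R(X, Y, Y, X)` is the sectional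
curvature of the plane spanned by orthonormal `X, Y`. -/
noncomputable def R4 {n : ℕ} (G : Eu n → Mt n) (i j k l : Fin n) (x : Eu n) : ℝ :=
  ∑ a, G x l a * N2.Rm G a k i j x

/-- `R(X, Y, Z, W)` for vectors given by their components. -/
noncomputable def RV {n : ℕ} (G : Eu n → Mt n) (x : Eu n) (X Y Z W : Eu n) : ℝ :=
  ∑ i, ∑ j, ∑ k, ∑ l, R4 G i j k l x * X i * Y j * Z k * W l

/-- The value `∑ R(e_i, e_k, e_j, e_l) φ_kl φ_ij` of the curvature operator of the second kind,
where the frame `e` is given by the columns of the matrix `F`. -/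
noncomputable def second {n : ℕ} (G : Eu n → Mt n) (x : Eu n) (F φ : Mt n) : ℝ :=
  ∑ i, ∑ j, ∑ k, ∑ l,
    RV G x (fun a => F a i) (fun a => F a k) (fun a => F a j) (fun a => F a l) * φ k l * φ i j

/-- The metric has positive curvature operator of the second kind: for every point (of every
chart), every orthonormal basis `e_i` of the tangent space (the columns of `F`), and every nonzero
symmetric traceless `φ`, one has `∑ R(e_i, e_k, e_j, e_l) φ_kl φ_ij > 0`. -/
def PosSecond {n : ℕ} {M : Type} [TopologicalSpace M] [ChartedSpace (En n) M]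
    (g : Metric n M) : Prop :=
  ∀ e ∈ atlas (En n) M, ∀ y ∈ ctarget e, ∀ F : Mt n, Fᵀ * g.G e y * F = 1 →
    ∀ φ : Mt n, φ.IsSymm → φ.trace = 0 → φ ≠ 0 → 0 < second (g.G e) y F φ

/-- `g t`, `0 ≤ t < T`, is a Ricci flow: smooth in time and space together, with
`∂_t g = -2 Ric(g)` in every chart. -/
def IsRicciFlow {n : ℕ} {M : Type} [TopologicalSpace M] [ChartedSpace (En n) M]
    (T : ℝ) (g : ℝ → Metric n M) : Prop :=
  (∀ e ∈ atlas (En n) M, ∀ i j, ContDiffOn ℝ ∞ (fun p : ℝ × Eu n => (g p.1).G e p.2 i j)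
    (Ico 0 T ×ˢ ctarget e)) ∧
  ∀ e ∈ atlas (En n) M, ∀ y ∈ ctarget e, ∀ t ∈ Ico 0 T, ∀ i j,
    HasDerivWithinAt (fun τ => (g τ).G e y i j) (-2 * Ric ((g t).G e) y i j) (Ico 0 T) t

end Pool.Agent.H858R2
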