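import Mathlib
import Pool.Agent.H786.G.R_seed8.H858R2.Defs

set_option autoImplicit false
set_option linter.all false
open scoped ContDiff Manifold Topology Matrix
open Set

namespace Pool.Agent.H858R2

open Pool.Agent.QTot

/-- the time interval `[0, T)`, `0 < T ≤ ∞` -/
def tint (T : EReal) : Set ℝ := {t : ℝ | 0 ≤ t ∧ (t : EReal) < T}

/-- `g t`, `t ∈ [0, T)`, is a Ricci flow: smooth in time and space together, with
`∂_t g = -2 Ric(g)` in every chart. -/
def RicciFlow {n : ℕ} {M : Type} [TopologicalSpace M] [ChartedSpace (En n) M]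
    (T : EReal) (g : ℝ → Metric n M) : Prop :=
  (∀ e ∈ atlas (En n) M, ∀ i j, ContDiffOn ℝ ∞ (fun p : ℝ × Eu n => (g p.1).G e p.2 i j)
    (tint T ×ˢ ctarget e)) ∧
  ∀ e ∈ atlas (En n) M, ∀ y ∈ ctarget e, ∀ t ∈ tint T, ∀ i j,
    HasDerivWithinAt (fun τ => (g τ).G e y i j) (-2 * Ric ((g t).G e) y i j) (tint T) t

/-- a Ricci flow on `[0, T)` which does not extend to a Ricci flow on a larger interval `[0, T')`
(two metrics are the same if their matrices agree in all charts of the atlas) -/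
def MaximalRicciFlow {n : ℕ} {M : Type} [TopologicalSpace M] [ChartedSpace (En n) M]
    (T : EReal) (g : ℝ → Metric n M) : Prop :=
  RicciFlow T g ∧ ∀ (T' : EReal) (g' : ℝ → Metric n M), RicciFlow T' g' →
    (∀ t ∈ tint T, ∀ e ∈ atlas (En n) M, ∀ y ∈ ctarget e, (g' t).G e y = (g t).G e y) → T' ≤ T

namespace MaxAux

theorem isOpen_ctarget {n : ℕ} {M : Type} [TopologicalSpace M]
    (e : OpenPartialHomeomorph M (En n)) : IsOpen (ctarget e) :=
  e.open_target.preimage (PiLp.continuous_toLp 2 _)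

theorem pd_congr {n : ℕ} (i : Fin n) {f g : Eu n → ℝ} {x : Eu n} (h : f =ᶠ[𝓝 x] g) :
    pd i f x = pd i g x := by
  unfold pd
  rw [h.fderiv_eq]

theorem pd_congr' {n : ℕ} (i : Fin n) {f g : Eu n → ℝ} {x : Eu n} (h : f =ᶠ[𝓝 x] g) :
    pd i f =ᶠ[𝓝 x] pd i g := by
  filter_upwards [h.eventually_nhds] with y hy
  exact pd_congr i hy

theorem Gam_congr {n : ℕ} {G G' : Eu n → Mt n} {x : Eu n} (h : G =ᶠ[𝓝 x] G') (k i j : Fin n) :
    Gam G k i j =ᶠ[𝓝 x] Gam G' k i j := by
  filter_upwards [h.eventually_nhds] with y hy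
  have hy' : G =ᶠ[𝓝 y] G' := hy
  have h1 : ∀ a b c : Fin n, pd a (fun z => G z b c) y = pd a (fun z => G' z b c) y := by
    intro a b c
    apply pd_congr
    filter_upwards [hy'] with z hz
    rw [hz]
  unfold Gam
  simp only [h1, hy'.eq_of_nhds]

theorem Ric_congr {n : ℕ} {G G' : Eu n → Mt n} {x : Eu n} (h : G =ᶠ[𝓝 x] G') :
    Ric G x = Ric G' x := by
  have h1 : ∀ a k i j : Fin n, pd a (Gam G k i j) x = pd a (Gam G' k i j) x :=
    fun a k i j => pd_congr a (Gam_congr h k i j)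
  have h2 : ∀ k i j : Fin n, Gam G k i j x = Gam G' k i j x :=
    fun k i j => (Gam_congr h k i j).eq_of_nhds
  unfold Ric
  simp only [h1, h2]

section
variable {n : ℕ} {M : Type} [TopologicalSpace M] [ChartedSpace (En n) M]

/-- agreement of two families of metrics in all charts at time `t` -/
def Agr (g g' : ℝ → Metric n M) (t : ℝ) : Prop :=
  ∀ e ∈ atlas (En n) M, ∀ y ∈ ctarget e, (g' t).G e y = (g t).G e y

theorem Agr.symm {g g' : ℝ → Metric n M} {t : ℝ} (h : Agr g g' t) : Agr g' g t :=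
  fun e he y hy => (h e he y hy).symm

theorem Agr.trans {g g' g'' : ℝ → Metric n M} {t : ℝ} (h : Agr g g' t) (h' : Agr g' g'' t) :
    Agr g g'' t := fun e he y hy => (h' e he y hy).trans (h e he y hy)

theorem Agr.rfl {g : ℝ → Metric n M} {t : ℝ} : Agr g g t := fun _ _ _ _ => Eq.refl _

theorem Agr.ric {g g' : ℝ → Metric n M} {t : ℝ} (h : Agr g g' t) {e : OpenPartialHomeomorph M (En n)}
    (he : e ∈ atlas (En n) M) {y : Eu n} (hy : y ∈ ctarget e) :
    Ric ((g' t).G e) y = Ric ((g t).G e) y := by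
  apply Ric_congr
  filter_upwards [(isOpen_ctarget e).mem_nhds hy] with z hz
  exact h e he z hz

theorem tint_mono {T T' : EReal} (h : T ≤ T') : tint T ⊆ tint T' :=
  fun t ht => ⟨ht.1, ht.2.trans_le h⟩

theorem tint_coe (T : ℝ) : tint (T : EReal) = Ico 0 T := by
  ext t
  simp [tint]

theorem tint_nhdsWithin {T T' : EReal} {t : ℝ} (ht : t ∈ tint T) (ht' : t ∈ tint T') :
    tint T ∈ 𝓝[tint T'] t := by
  have : IsOpen {s : ℝ | (s : EReal) < T} := isOpen_Iio.preimage continuous_coe_real_ereal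
  filter_upwards [self_mem_nhdsWithin, mem_nhdsWithin_of_mem_nhds (this.mem_nhds ht.2)] with s hs hs'
  exact ⟨hs.1, hs'⟩

/-- gluing: if locally in time `g` agrees with a Ricci flow then it is a Ricci flow -/
theorem glue {T : EReal} {g : ℝ → Metric n M}
    (h : ∀ t ∈ tint T, ∃ (T' : EReal) (g' : ℝ → Metric n M), RicciFlow T' g' ∧ t ∈ tint T' ∧ T' ≤ T ∧
      ∀ s ∈ tint T', Agr g' g s) : RicciFlow T g := by
  constructor
  · rintro e he i j ⟨t, y⟩ ⟨ht, hy⟩
    obtain ⟨T', g', hg', htT', hle, hagr⟩ := h t ht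
    have h1 : ContDiffWithinAt ℝ ∞ (fun p : ℝ × Eu n => (g' p.1).G e p.2 i j)
        (tint T' ×ˢ ctarget e) (t, y) := hg'.1 e he i j (t, y) ⟨htT', hy⟩
    have h2 : ContDiffWithinAt ℝ ∞ (fun p : ℝ × Eu n => (g p.1).G e p.2 i j)
        (tint T' ×ˢ ctarget e) (t, y) := by
      refine h1.congr ?_ ?_
      · rintro ⟨s, z⟩ ⟨hs, hz⟩
        exact congrFun (congrFun (hagr s hs e he z hz) i) j
      · exact congrFun (congrFun (hagr t htT' e he y hy) i) j
    refine h2.mono_of_mem_nhdsWithin ?_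
    rw [nhdsWithin_prod_eq]
    exact Filter.prod_mem_prod (tint_nhdsWithin htT' ht) self_mem_nhdsWithin
  · intro e he y hy t ht i j
    obtain ⟨T', g', hg', htT', hle, hagr⟩ := h t ht
    have h1 := hg'.2 e he y hy t htT' i j
    rw [← (hagr t htT').ric he hy] at h1
    have h2 : HasDerivWithinAt (fun τ => (g τ).G e y i j) (-2 * Ric ((g t).G e) y i j) (tint T') t :=
      h1.congr (fun s hs => congrFun (congrFun (hagr s hs e he y hy) i) j)
        (congrFun (congrFun (hagr t htT' e he y hy) i) j)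
    exact h2.mono_of_mem_nhdsWithin (tint_nhdsWithin htT' ht)

end

end MaxAux

open MaxAux in
/-- ## TARGET MAX.
Every Ricci flow extends to a maximal one. Proof: Zorn's lemma for pairs `(T', g')` extending `(T, g)`
(order: `T₁ ≤ T₂` and `g₂ = g₁` (in all charts) on `[0, T₁)`; for a chain the union is defined at time `t` by any
member with `t < T_i`; smoothness and the equation are local in time: each `t < sup T_i` has a neighbourhood
relative to `[0,∞)` inside some `[0, T_i)`). No uniqueness theorem for the Ricci flow is needed. (If `T' = T_0` is a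
maximal element in the preorder, a strict extension would contradict maximality.) -/
theorem exists_maximal {n : ℕ} {M : Type} [TopologicalSpace M] [ChartedSpace (En n) M]
    (T : ℝ) (g : ℝ → Metric n M) (hT : 0 < T) (hg : IsRicciFlow T g) :
    ∃ (T' : EReal) (g' : ℝ → Metric n M), MaximalRicciFlow T' g' ∧ (T : EReal) ≤ T' ∧
      ∀ t ∈ Ico 0 T, ∀ e ∈ atlas (En n) M, ∀ y ∈ ctarget e, (g' t).G e y = (g t).G e y := by
  classical
  have hg0 : RicciFlow (T : EReal) g := by
    unfold RicciFlow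
    rw [tint_coe]
    exact hg
  let α := {p : EReal × (ℝ → Metric n M) // RicciFlow p.1 p.2 ∧ (T : EReal) ≤ p.1 ∧
    ∀ t ∈ tint (T : EReal), Agr g p.2 t}
  haveI : Nonempty α := ⟨⟨(T, g), hg0, le_rfl, fun t _ => Agr.rfl⟩⟩
  let r : α → α → Prop := fun a b => a.1.1 ≤ b.1.1 ∧ ∀ t ∈ tint a.1.1, Agr a.1.2 b.1.2 t
  obtain ⟨m, hm⟩ := exists_maximal_of_nonempty_chains_bounded (r := r) (by
    intro c hc hne
    have hcmp : ∀ a ∈ c, ∀ b ∈ c, ∀ t, t ∈ tint a.1.1 → t ∈ tint b.1.1 → Agr a.1.2 b.1.2 t := by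
      intro a ha b hb t hta htb
      by_cases hab : a = b
      · subst hab; exact Agr.rfl
      · rcases hc ha hb hab with h | h
        · exact h.2 t hta
        · exact (h.2 t htb).symm
    let Ts : EReal := sSup ((fun a : α => a.1.1) '' c)
    let gs : ℝ → Metric n M := fun t =>
      if h : ∃ a ∈ c, t ∈ tint a.1.1 then h.choose.1.2 t else g t
    have hgs : ∀ a ∈ c, ∀ t ∈ tint a.1.1, Agr a.1.2 gs t := by
      intro a ha t hta
      have h : ∃ a ∈ c, t ∈ tint a.1.1 := ⟨a, ha, hta⟩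
      have e1 : gs t = h.choose.1.2 t := dif_pos h
      have h2 := hcmp a ha h.choose h.choose_spec.1 t hta h.choose_spec.2
      intro e he y hy
      rw [e1]
      exact h2 e he y hy
    have hle : ∀ a ∈ c, a.1.1 ≤ Ts := fun a ha => le_sSup ⟨a, ha, rfl⟩
    have hflow : RicciFlow Ts gs := by
      apply glue
      intro t ht
      obtain ⟨_, ⟨a, ha, rfl⟩, hlt⟩ := lt_sSup_iff.1 ht.2
      exact ⟨a.1.1, a.1.2, a.2.1, ⟨ht.1, hlt⟩, hle a ha, fun s hs => hgs a ha s hs⟩
    obtain ⟨a₀, ha₀⟩ := hne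
    refine ⟨⟨(Ts, gs), hflow, a₀.2.2.1.trans (hle a₀ ha₀), ?_⟩, ?_⟩
    · intro t ht
      exact (a₀.2.2.2 t ht).trans (hgs a₀ ha₀ t (tint_mono a₀.2.2.1 ht))
    · intro a ha
      exact ⟨hle a ha, fun t ht => hgs a ha t ht⟩) (by
    intro a b c hab hbc
    exact ⟨hab.1.trans hbc.1, fun t ht => (hab.2 t ht).trans (hbc.2 t (tint_mono hab.1 ht))⟩)
  refine ⟨m.1.1, m.1.2, ⟨m.2.1, ?_⟩, m.2.2.1, ?_⟩
  · intro T' g' hg' hagr
    rcases le_total T' m.1.1 with h | h
    · exact h
    · have hα : RicciFlow T' g' ∧ (T : EReal) ≤ T' ∧ ∀ t ∈ tint (T : EReal), Agr g g' t :=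
        ⟨hg', m.2.2.1.trans h, fun t ht => (m.2.2.2 t ht).trans (hagr t (tint_mono m.2.2.1 ht))⟩
      have := hm ⟨(T', g'), hα⟩ ⟨h, fun t ht => hagr t ht⟩
      exact this.1
  · intro t ht
    rw [← tint_coe] at ht
    exact m.2.2.2 t ht

end Pool.Agent.H858R2
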